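import Pool.Agent.N463.HW.Stm

set_option autoImplicit false

open MeasureTheory Filter

namespace Pool.Agent.N353.HWINV

open Pool.Agent.N463.HW

lemma Gam_cont (m : ℕ) : Continuous (Gam m) := by
  unfold Gam
  apply intervalIntegral.continuous_primitive
  intro a b
  apply Continuous.intervalIntegrable
  fun_prop

theorem t_INV (h1 : S_DER) (h2 : S_NC) : S_INV := by
  intro x P n S hm
  obtain ⟨hder, hc, hp1, hp2, hb⟩ := h1 x S.x_zero S.x_sum
  -- continuity of gs
  have hgc : Continuous (gs x) := continuous_iff_continuousAt.2 fun τ => (hder τ).continuousAt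
  -- the derivative of the angle
  have hth : ∀ τ, HasDerivAt (tht x) (1 + (Gs x τ).re) τ := by
    intro τ
    have h := Complex.imCLM.hasFDerivAt.comp_hasDerivAt τ (hder τ)
    have h' : HasDerivAt (fun τ => (gs x τ).im) (Gs x τ).re τ := by
      have h9 : Complex.imCLM (Complex.I * Gs x τ) = (Gs x τ).re := by
        rw [Complex.imCLM_apply, Complex.I_mul_im]
      rw [← h9]
      exact h
    exact (hasDerivAt_id τ).add h'
  have hthc : Continuous (tht x) := continuous_iff_continuousAt.2 fun τ => (hth τ).continuousAt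
  have hpos : ∀ τ, 0 < 1 + (Gs x τ).re := by
    intro τ
    have h3 : |(Gs x τ).re| ≤ 1 / 2 := (Complex.abs_re_le_norm _).trans ((hb τ).trans S.x_small)
    have := (abs_le.1 h3).1
    linarith
  have hmono : StrictMono (tht x) := by
    apply strictMono_of_deriv_pos
    intro τ
    rw [(hth τ).deriv]
    exact hpos τ
  have hpi := Real.pi_pos
  have hthp : ∀ τ, tht x (τ + 2 * Real.pi) = tht x τ + 2 * Real.pi := by
    intro τ
    unfold tht
    rw [hp1]
    ring
  have hper : Function.Periodic (gs x) (2 * Real.pi) := hp1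
  have hthk : ∀ k : ℤ, tht x (k * (2 * Real.pi)) = k * (2 * Real.pi) + (gs x 0).im := by
    intro k
    unfold tht
    have := hper.int_mul k 0
    rw [zero_add] at this
    rw [this]
  have hsurj : Function.Surjective (tht x) := by
    apply hthc.surjective
    · apply tendsto_atTop_atTop_of_monotone hmono.monotone
      intro b
      obtain ⟨k, hk⟩ := exists_int_gt ((b - (gs x 0).im) / (2 * Real.pi))
      refine ⟨k * (2 * Real.pi), ?_⟩
      rw [hthk]
      rw [div_lt_iff₀ (by positivity)] at hk
      linarith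
    · apply tendsto_atBot_atBot_of_monotone hmono.monotone
      intro b
      obtain ⟨k, hk⟩ := exists_int_lt ((b - (gs x 0).im) / (2 * Real.pi))
      refine ⟨k * (2 * Real.pi), ?_⟩
      rw [hthk]
      rw [lt_div_iff₀ (by positivity)] at hk
      linarith
  let e : ℝ ≃o ℝ := hmono.orderIsoOfSurjective (tht x) hsurj
  have he : ∀ τ, e τ = tht x τ := fun τ => rfl
  have hes : ∀ θ, tht x (e.symm θ) = θ := fun θ => e.apply_symm_apply θ
  have hse : ∀ τ, e.symm (tht x τ) = τ := fun τ => e.symm_apply_apply τ
  have hsc : Continuous (fun θ => e.symm θ) := e.symm.continuous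
  have hsp : ∀ θ, e.symm (θ + 2 * Real.pi) = e.symm θ + 2 * Real.pi := by
    intro θ
    have h4 : tht x (e.symm θ + 2 * Real.pi) = θ + 2 * Real.pi := by
      rw [hthp, hes]
    rw [← h4, hse]
  have hP : 0 < Real.sqrt (P / Real.pi) := Real.sqrt_pos.2 (div_pos S.P_pos hpi)
  have hrc : Continuous (rho P x) := by
    unfold rho
    exact continuous_const.mul (Real.continuous_exp.comp (Complex.continuous_re.comp hgc))
  have hrp : ∀ τ, rho P x (τ + 2 * Real.pi) = rho P x τ := by
    intro τ
    unfold rho
    rw [hp1]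
  have hrpos : ∀ τ, 0 < rho P x τ := fun τ => mul_pos hP (Real.exp_pos _)
  refine ⟨fun θ => rho P x (e.symm θ), ?_, ?_, ?_, ?_, ?_⟩
  · exact hrc.comp hsc
  · intro θ
    show rho P x (e.symm (θ + 2 * Real.pi)) = rho P x (e.symm θ)
    rw [hsp, hrp]
  · intro θ
    exact hrpos _
  · obtain ⟨τ, τ', hne⟩ := h2 x S.x_zero S.x_sum S.x_one
    refine ⟨tht x τ, tht x τ', ?_⟩
    show rho P x (e.symm (tht x τ)) ≠ rho P x (e.symm (tht x τ'))
    rw [hse, hse]
    intro h5
    apply hne
    unfold rho at h5
    exact Real.exp_injective (mul_left_cancel₀ hP.ne' h5)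
  · intro m hm1
    have hGc := Gam_cont m
    set F : ℝ → ℂ := fun θ => Complex.exp (m * (θ : ℂ) * Complex.I) *
      (Gam m (rho P x (e.symm θ)) : ℂ) with hF
    have hFc : Continuous F := by
      have h6 : Continuous fun θ => (Gam m (rho P x (e.symm θ)) : ℂ) :=
        Complex.continuous_ofReal.comp (hGc.comp (hrc.comp hsc))
      have h7 : Continuous fun θ : ℝ => Complex.exp (m * (θ : ℂ) * Complex.I) := by fun_prop
      exact h7.mul h6
    show ∫ θ in (-Real.pi)..Real.pi, F θ = 0
    have hcov := intervalIntegral.integral_deriv_smul_comp (a := e.symm (-Real.pi))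
      (b := e.symm Real.pi) (f := tht x) (f' := fun τ => 1 + (Gs x τ).re) (g := F)
      (fun τ _ => hth τ)
      ((continuous_const.add (Complex.continuous_re.comp hc)).continuousOn) hFc
    rw [hes, hes] at hcov
    rw [← hcov]
    have hs2 : e.symm Real.pi = e.symm (-Real.pi) + 2 * Real.pi := by
      rw [← hsp]
      congr 1
      ring
    rw [hs2]
    set H : ℝ → ℂ := fun τ => Complex.exp (m * (tht x τ : ℂ) * Complex.I) *
        (Gam m (rho P x τ) : ℂ) * ((1 + (Gs x τ).re : ℝ) : ℂ) with hH
    have hHF : (fun τ => (1 + (Gs x τ).re) • (F ∘ tht x) τ) = H := by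
      funext τ
      simp only [hH, hF, Function.comp_apply, hse, Complex.real_smul]
      ring
    rw [hHF]
    have hHper : Function.Periodic H (2 * Real.pi) := by
      intro τ
      simp only [hH]
      rw [hthp, hrp, hp2]
      congr 2
      have h8 : (m : ℂ) * ((tht x τ + 2 * Real.pi : ℝ) : ℂ) * Complex.I =
          (m : ℂ) * (tht x τ : ℂ) * Complex.I + (m : ℂ) * (2 * Real.pi * Complex.I) := by
        push_cast
        ring
      rw [h8, Complex.exp_add, Complex.exp_nat_mul_two_pi_mul_I, mul_one]
    rw [hHper.intervalIntegral_add_eq (e.symm (-Real.pi)) 0, zero_add]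
    exact hm m hm1

end Pool.Agent.N353.HWINV
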